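import Mathlib

/-!
# Domatic game numbers under a change of first player (MP_d2c770)

For every finite graph the domatic game numbers for the two choices of the first player differ by
at most one.

Idea: strategy stealing with a phantom vertex.  Suppose that Alice wins the game with `k + 1`
colours when one player starts.  In the game with `k` colours started by the other player she
imagines one extra move, at a phantom vertex `x`, of colour `a`, and identifies the `k` real colours
with the colours other than `a` of the imagined game.  She follows her winning strategy, replacing
the colour `a` by an arbitrary one.  Whenever Bob really plays at the phantom vertex, she imagines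
that he has played the colour `a` at another vertex, the new phantom.  Every colour class of the
imagined game other than that of `a` is then contained in the corresponding real one.
-/

set_option autoImplicit false

namespace Pool.Agent.Results.MP_d2c770_co.DifferAtMostOne

/-- The two players. -/
inductive Player
  | alice
  | bob

/-- `S` is a dominating set of `G`. -/
def Dominating {V : Type} (G : SimpleGraph V) (S : Set V) : Prop :=
  ∀ v, v ∈ S ∨ ∃ u ∈ S, G.Adj v u

/-- `AliceWins G k X f`: in the domatic game on `G` with palette `Fin k`, Alice has a winning
strategy from the position `f` (`f v = none` when `v` is uncoloured) with player `X` to move. -/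
inductive AliceWins {V : Type} [DecidableEq V] (G : SimpleGraph V) (k : ℕ) :
    Player → (V → Option (Fin k)) → Prop
  /-- the game is over and all the colour classes are dominating -/
  | finished (X : Player) (f : V → Option (Fin k)) (hf : ∀ v, f v ≠ none)
      (hd : ∀ c, Dominating G {v | f v = some c}) : AliceWins G k X f
  /-- Alice has a good move -/
  | alice (f : V → Option (Fin k)) (v : V) (c : Fin k) (hv : f v = none)
      (h : AliceWins G k Player.bob (Function.update f v (some c))) :
      AliceWins G k Player.alice f
  /-- the game is not over and all the moves of Bob are good for Alice -/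
  | bob (f : V → Option (Fin k)) (hne : ∃ v, f v = none)
      (h : ∀ (v : V) (c : Fin k), f v = none →
        AliceWins G k Player.alice (Function.update f v (some c))) :
      AliceWins G k Player.bob f

/-- The domatic game number `γ_g(G, X)`: the largest `k` for which Alice has a winning strategy in
the game with `k` colours in which `X` moves first. -/
noncomputable def gameNumber {V : Type} [DecidableEq V] (G : SimpleGraph V) (X : Player) : ℕ :=
  sSup {k : ℕ | AliceWins G k X (fun _ => none)}

variable {V : Type} [DecidableEq V]

/-- the relation between the imagined position `f` and the real position `g`, with phantom `x` -/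
structure Rel {k : ℕ} (a : Fin (k + 1)) (f : V → Option (Fin (k + 1))) (g : V → Option (Fin k))
    (x : V) : Prop where
  fx : f x = some a
  gx : g x = none
  iff : ∀ v, v ≠ x → (f v = none ↔ g v = none)
  col : ∀ v b, f v = some (a.succAbove b) → g v = some b

lemma main_aux {G : SimpleGraph V} {k : ℕ} (hk : 0 < k) (a : Fin (k + 1)) {X : Player}
    {f : V → Option (Fin (k + 1))} (h : AliceWins G (k + 1) X f) :
    ∀ (g : V → Option (Fin k)) (x : V), Rel a f g x → AliceWins G k X g := by
  induction h with
  | finished X f hf hd =>
    intro g x hR
    have hover : ∀ (Y : Player) (c : Fin k), AliceWins G k Y (Function.update g x (some c)) := by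
      intro Y c
      refine AliceWins.finished _ _ ?_ ?_
      · intro v
        by_cases hvx : v = x
        · subst hvx; simp
        · rw [Function.update_of_ne hvx]
          intro hgv
          exact hf v ((hR.iff v hvx).2 hgv)
      · intro b v
        have key : ∀ u, f u = some (a.succAbove b) → Function.update g x (some c) u = some b := by
          intro u hu
          have hux : u ≠ x := by
            rintro rfl
            rw [hR.fx] at hu
            exact (Fin.succAbove_ne a b) (Option.some.inj hu).symm
          rw [Function.update_of_ne hux]
          exact hR.col u b hu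
        rcases hd (a.succAbove b) v with h1 | ⟨u, h1, h2⟩
        · left; exact key v h1
        · right; exact ⟨u, key u h1, h2⟩
    cases X with
    | alice => exact AliceWins.alice g x ⟨0, hk⟩ hR.gx (hover _ _)
    | bob =>
      refine AliceWins.bob g ⟨x, hR.gx⟩ ?_
      intro v c hv
      have hvx : v = x := by
        by_contra hvx
        exact hf v ((hR.iff v hvx).2 hv)
      subst hvx
      exact hover _ _
  | alice f v c hv h ih =>
    intro g x hR
    have hvx : v ≠ x := by
      rintro rfl
      rw [hR.fx] at hv
      exact absurd hv (by simp)
    have hgv : g v = none := (hR.iff v hvx).1 hv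
    rcases Fin.eq_self_or_eq_succAbove a c with hc | ⟨b, hc⟩
    · -- the sacrificed colour
      refine AliceWins.alice g v ⟨0, hk⟩ hgv (ih _ x ⟨?_, ?_, ?_, ?_⟩)
      · rw [Function.update_of_ne (Ne.symm hvx)]; exact hR.fx
      · rw [Function.update_of_ne (Ne.symm hvx)]; exact hR.gx
      · intro u hu
        by_cases huv : u = v
        · subst huv; simp
        · rw [Function.update_of_ne huv, Function.update_of_ne huv]; exact hR.iff u hu
      · intro u b hu
        by_cases huv : u = v
        · subst huv
          rw [Function.update_self, hc] at hu
          exact absurd (Option.some.inj hu).symm (Fin.succAbove_ne a b)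
        · rw [Function.update_of_ne huv] at hu ⊢
          exact hR.col u b hu
    · refine AliceWins.alice g v b hgv (ih _ x ⟨?_, ?_, ?_, ?_⟩)
      · rw [Function.update_of_ne (Ne.symm hvx)]; exact hR.fx
      · rw [Function.update_of_ne (Ne.symm hvx)]; exact hR.gx
      · intro u hu
        by_cases huv : u = v
        · subst huv; simp
        · rw [Function.update_of_ne huv, Function.update_of_ne huv]; exact hR.iff u hu
      · intro u b' hu
        by_cases huv : u = v
        · subst huv
          rw [Function.update_self, hc] at hu
          rw [Function.update_self, Fin.succAbove_right_injective (Option.some.inj hu)]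
        · rw [Function.update_of_ne huv] at hu ⊢
          exact hR.col u b' hu
  | bob f hne h ih =>
    intro g x hR
    refine AliceWins.bob g ⟨x, hR.gx⟩ ?_
    intro v c hv
    by_cases hvx : v = x
    · -- Bob plays at the phantom vertex
      subst hvx
      obtain ⟨y, hy⟩ := hne
      have hyv : y ≠ v := by
        rintro rfl
        rw [hR.fx] at hy
        exact absurd hy (by simp)
      refine ih y a hy _ y ⟨?_, ?_, ?_, ?_⟩
      · rw [Function.update_self]
      · rw [Function.update_of_ne hyv]; exact (hR.iff y hyv).1 hy
      · intro u hu
        rw [Function.update_of_ne hu]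
        by_cases huv : u = v
        · subst huv; rw [hR.fx]; simp
        · rw [Function.update_of_ne huv]; exact hR.iff u huv
      · intro u b hu
        by_cases huy : u = y
        · subst huy
          rw [Function.update_self] at hu
          exact absurd (Option.some.inj hu).symm (Fin.succAbove_ne a b)
        · rw [Function.update_of_ne huy] at hu
          have huv : u ≠ v := by
            rintro rfl
            rw [hR.fx] at hu
            exact (Fin.succAbove_ne a b) (Option.some.inj hu).symm
          rw [Function.update_of_ne huv]
          exact hR.col u b hu
    · have hfv : f v = none := (hR.iff v hvx).2 hv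
      refine ih v (a.succAbove c) hfv _ x ⟨?_, ?_, ?_, ?_⟩
      · rw [Function.update_of_ne (Ne.symm hvx)]; exact hR.fx
      · rw [Function.update_of_ne (Ne.symm hvx)]; exact hR.gx
      · intro u hu
        by_cases huv : u = v
        · subst huv; simp
        · rw [Function.update_of_ne huv, Function.update_of_ne huv]; exact hR.iff u hu
      · intro u b hu
        by_cases huv : u = v
        · subst huv
          rw [Function.update_self] at hu
          rw [Function.update_self, Fin.succAbove_right_injective (Option.some.inj hu)]
        · rw [Function.update_of_ne huv] at hu ⊢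
          exact hR.col u b hu

lemma rel_start {k : ℕ} (a : Fin (k + 1)) (x : V) :
    Rel a (Function.update (fun _ => none) x (some a)) (fun _ => none) x := by
  refine ⟨by simp, rfl, ?_, ?_⟩
  · intro v hv
    rw [Function.update_of_ne hv]
    simp
  · intro v b hv
    by_cases hvx : v = x
    · subst hvx
      rw [Function.update_self] at hv
      exact absurd (Option.some.inj hv).symm (Fin.succAbove_ne a b)
    · rw [Function.update_of_ne hvx] at hv
      exact absurd hv (by simp)

lemma step_alice [Nonempty V] {G : SimpleGraph V} {k : ℕ} (hk : 0 < k)
    (h : AliceWins G (k + 1) Player.alice (fun _ => none)) :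
    AliceWins G k Player.bob (fun _ => none) := by
  cases h with
  | finished _ _ hf hd => exact absurd rfl (hf (Classical.arbitrary V))
  | alice _ v c hv h => exact main_aux hk c h _ v (rel_start c v)

lemma step_bob [Nonempty V] {G : SimpleGraph V} {k : ℕ} (hk : 0 < k)
    (h : AliceWins G (k + 1) Player.bob (fun _ => none)) :
    AliceWins G k Player.alice (fun _ => none) := by
  cases h with
  | finished _ _ hf hd => exact absurd rfl (hf (Classical.arbitrary V))
  | bob _ hne h =>
    have := h (Classical.arbitrary V) 0 rfl
    exact main_aux hk 0 this _ _ (rel_start 0 _)

lemma exists_of_wins {G : SimpleGraph V} {k : ℕ} (hk : 0 < k) {X : Player}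
    {f : V → Option (Fin k)} (h : AliceWins G k X f) :
    ∃ g : V → Option (Fin k), ∀ c, Dominating G {v | g v = some c} := by
  induction h with
  | finished X f hf hd => exact ⟨f, hd⟩
  | alice f v c hv h ih => exact ih
  | bob f hne h ih =>
    obtain ⟨v, hv⟩ := hne
    exact ih v ⟨0, hk⟩ hv

lemma le_card [Fintype V] [Nonempty V] {G : SimpleGraph V} {k : ℕ} {X : Player}
    {f : V → Option (Fin k)} (h : AliceWins G k X f) : k ≤ Fintype.card V := by
  rcases Nat.eq_zero_or_pos k with hk | hk
  · subst hk; exact Nat.zero_le _
  obtain ⟨g, hg⟩ := exists_of_wins hk h
  have h1 : ∀ c : Fin k, ∃ v, g v = some c := by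
    intro c
    rcases hg c (Classical.arbitrary V) with h2 | ⟨u, h2, -⟩
    · exact ⟨_, h2⟩
    · exact ⟨u, h2⟩
  choose e he using h1
  have hinj : Function.Injective e := by
    intro c c' hcc
    have := he c
    rw [hcc, he c'] at this
    exact (Option.some.inj this).symm
  simpa using Fintype.card_le_of_injective e hinj

lemma wins_one [Fintype V] (G : SimpleGraph V) : ∀ (n : ℕ) (X : Player) (f : V → Option (Fin 1)),
    (Finset.univ.filter (fun v => f v = none)).card = n → AliceWins G 1 X f := by
  intro n
  induction n with
  | zero =>
    intro X f hf
    have h1 : ∀ v, f v ≠ none := by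
      intro v hv
      rw [Finset.card_eq_zero] at hf
      have : v ∈ (Finset.univ.filter (fun v => f v = none)) := by simp [hv]
      rw [hf] at this
      exact absurd this (by simp)
    refine AliceWins.finished X f h1 ?_
    intro c v
    left
    obtain ⟨d, hd⟩ := Option.ne_none_iff_exists'.1 (h1 v)
    change f v = some c
    rw [hd, Subsingleton.elim c d]
  | succ n ih =>
    intro X f hf
    have hstep : ∀ v, f v = none → ∀ (Y : Player) (c : Fin 1),
        AliceWins G 1 Y (Function.update f v (some c)) := by
      intro v hv Y c
      apply ih
      have h2 : (Finset.univ.filter (fun u => Function.update f v (some c) u = none)) =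
          (Finset.univ.filter (fun u => f u = none)).erase v := by
        ext u
        simp only [Finset.mem_filter, Finset.mem_univ, true_and, Finset.mem_erase]
        by_cases huv : u = v
        · subst huv; simp
        · rw [Function.update_of_ne huv]
          simp [huv]
      rw [h2, Finset.card_erase_of_mem (by simp [hv]), hf]
      rfl
    have hne : ∃ v, f v = none := by
      have : 0 < (Finset.univ.filter (fun v => f v = none)).card := by omega
      obtain ⟨v, hv⟩ := Finset.card_pos.1 this
      exact ⟨v, by simpa using hv⟩
    cases X with
    | alice =>
      obtain ⟨v, hv⟩ := hne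
      exact AliceWins.alice f v 0 hv (hstep v hv _ _)
    | bob => exact AliceWins.bob f hne (fun v c hv => hstep v hv _ _)

lemma gameNumber_spec [Fintype V] [Nonempty V] (G : SimpleGraph V) (X : Player) :
    AliceWins G (gameNumber G X) X (fun _ => none) ∧ 1 ≤ gameNumber G X ∧
      ∀ k, AliceWins G k X (fun _ => none) → k ≤ gameNumber G X := by
  have hbdd : BddAbove {k : ℕ | AliceWins G k X (fun _ => none)} :=
    ⟨Fintype.card V, fun k hk => le_card hk⟩
  have h1 : 1 ∈ {k : ℕ | AliceWins G k X (fun _ => none)} := wins_one G _ X _ rfl
  exact ⟨Nat.sSup_mem ⟨1, h1⟩ hbdd, le_csSup hbdd h1, fun k hk => le_csSup hbdd hk⟩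

/-- For every finite nonempty graph the two domatic game numbers differ by at most `1`. -/
theorem result (V : Type) [Fintype V] [DecidableEq V] [Nonempty V] (G : SimpleGraph V) :
    |(gameNumber G Player.alice : ℤ) - gameNumber G Player.bob| ≤ 1 := by
  obtain ⟨ha1, ha2, ha3⟩ := gameNumber_spec G Player.alice
  obtain ⟨hb1, hb2, hb3⟩ := gameNumber_spec G Player.bob
  have h1 : gameNumber G Player.alice ≤ gameNumber G Player.bob + 1 := by
    rcases Nat.lt_or_ge (gameNumber G Player.alice) 2 with h | h
    · omega
    · obtain ⟨k, hk⟩ : ∃ k, gameNumber G Player.alice = k + 1 :=
        ⟨gameNumber G Player.alice - 1, by omega⟩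
      rw [hk] at ha1
      have := hb3 k (step_alice (by omega) ha1)
      omega
  have h2 : gameNumber G Player.bob ≤ gameNumber G Player.alice + 1 := by
    rcases Nat.lt_or_ge (gameNumber G Player.bob) 2 with h | h
    · omega
    · obtain ⟨k, hk⟩ : ∃ k, gameNumber G Player.bob = k + 1 :=
        ⟨gameNumber G Player.bob - 1, by omega⟩
      rw [hk] at hb1
      have := ha3 k (step_bob (by omega) hb1)
      omega
  rw [abs_le]
  omega

end Pool.Agent.Results.MP_d2c770_co.DifferAtMostOne
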